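import Pool.Agent.Lib.MP_97284c_gt.K.N5
import Pool.Agent.Lib.MP_97284c_gt.K.F11
import Pool.Agent.Lib.MP_97284c_gt.StmU

/-!
# MP_97284c_gt, part K: the star is determined by its angles
-/

namespace Pool.Agent.Lib.MP_97284c_gt

open ComplexConjugate

/-- the part of the star data which determines it up to a similarity -/
structure Rig (W : ℤ → ℂ) (p : ℂ) (α : ℤ → ℝ) (b : ℝ) : Prop where
  rot : ∀ k, W (k + 1) - W k = Complex.exp (α k * Complex.I) * (W (k - 1) - W k)
  rotp : W 1 - W 0 = Complex.exp (b * Complex.I) * (p - W 0)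
  ne : p - W 0 ≠ 0

theorem SD.rig {N : ℕ} {W : ℤ → ℂ} {p : ℂ} {α : ℤ → ℝ} {bm bp : ℝ} (h : SD N W p α bm bp) :
    Rig W p α bp := by
  refine ⟨h.rot, h.rotp, ?_⟩
  intro h0
  have := h.unitp
  rw [h0] at this
  simp at this

theorem k_rigid {W W' : ℤ → ℂ} {p p' : ℂ} {α : ℤ → ℝ} {b : ℝ} (h : Rig W p α b)
    (h' : Rig W' p' α b) (k : ℤ) :
    (W' k - W' 0) / (p' - W' 0) = (W k - W 0) / (p - W 0) := by
  set c := (p' - W' 0) / (p - W 0) with hc
  have hp := h.ne
  have hp' := h'.ne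
  have e0 : p' - W' 0 = c * (p - W 0) := by rw [hc]; field_simp
  have step : ∀ k : ℤ, W' (k + 1) - W' k = c * (W (k + 1) - W k) := by
    intro k
    induction k using Int.induction_on with
    | zero =>
      rw [zero_add, h.rotp, h'.rotp, e0]; ring
    | succ i ih =>
      have e1 := h.rot ((i : ℤ) + 1)
      have e2 := h'.rot ((i : ℤ) + 1)
      rw [add_sub_cancel_right] at e1 e2
      rw [e1, e2]
      linear_combination (-Complex.exp (α ((i : ℤ) + 1) * Complex.I)) * ih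
    | pred i ih =>
      have e1 := h.rot (-(i : ℤ))
      have e2 := h'.rot (-(i : ℤ))
      have e3 : -(i : ℤ) - 1 + 1 = -(i : ℤ) := by ring
      rw [e3]
      have hne : Complex.exp (α (-(i : ℤ)) * Complex.I) ≠ 0 := Complex.exp_ne_zero _
      have e4 : Complex.exp (α (-(i : ℤ)) * Complex.I) *
          (W' (-(i : ℤ) - 1) - W' (-(i : ℤ)) - c * (W (-(i : ℤ) - 1) - W (-(i : ℤ)))) = 0 := by
        linear_combination ih - e2 + c * e1
      have e5 := (mul_eq_zero.1 e4).resolve_left hne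
      linear_combination -e5
  have tot : ∀ k : ℤ, W' k - W' 0 = c * (W k - W 0) := by
    intro k
    induction k using Int.induction_on with
    | zero => simp
    | succ i ih => linear_combination ih + step i
    | pred i ih =>
      have := step (-(i : ℤ) - 1)
      have e3 : -(i : ℤ) - 1 + 1 = -(i : ℤ) := by ring
      rw [e3] at this
      linear_combination ih - this
  rw [tot k, e0]
  have hc0 : c ≠ 0 := by rw [hc]; exact div_ne_zero hp' hp
  field_simp

/-- the mirror image -/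
theorem k_mirror {N : ℕ} {W : ℤ → ℂ} {p : ℂ} {α : ℤ → ℝ} {b : ℝ} (h : SD N W p α b b)
    (hα : ∀ k, α (-k) = α k) :
    Rig (fun k => conj (W (-k))) (conj p) α b := by
  have conjexp : ∀ t : ℝ, conj (Complex.exp (t * Complex.I)) = Complex.exp (-(t * Complex.I)) := by
    intro t
    rw [← Complex.exp_conj]
    congr 1
    simp
  refine ⟨?_, ?_, ?_⟩
  · intro k
    have e := h.rot (-k)
    rw [hα] at e
    have e2 := congrArg conj e
    rw [map_mul, conjexp, map_sub, map_sub] at e2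
    have e3 : Complex.exp (α k * Complex.I) * Complex.exp (-(α k * Complex.I)) = 1 := by
      rw [← Complex.exp_add, add_neg_cancel, Complex.exp_zero]
    have i1 : -(k + 1) = -k - 1 := by ring
    have i2 : -(k - 1) = -k + 1 := by ring
    simp only [i1, i2]
    rw [e2, ← mul_assoc, e3, one_mul]
  · have e := h.rotm
    have e2 := congrArg conj e
    rw [map_mul, conjexp, map_sub, map_sub] at e2
    have e3 : Complex.exp (b * Complex.I) * Complex.exp (-(b * Complex.I)) = 1 := by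
      rw [← Complex.exp_add, add_neg_cancel, Complex.exp_zero]
    simp only [neg_zero]
    rw [e2, ← mul_assoc, e3, one_mul]
  · simp only [neg_zero]
    rw [← map_sub]
    intro h0
    have := (map_eq_zero conj).1 h0
    exact h.rig.ne this

/-- axial symmetry of the normalised star -/
theorem k_sym {N : ℕ} {W : ℤ → ℂ} {p : ℂ} {α : ℤ → ℝ} {b : ℝ} (h : SD N W p α b b)
    (hα : ∀ k, α (-k) = α k) (k : ℤ) :
    conj ((W (-k) - W 0) / (p - W 0)) = (W k - W 0) / (p - W 0) := by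
  have := k_rigid h.rig (k_mirror h hα) k
  simp only [neg_zero] at this
  rw [map_div₀, map_sub, map_sub]
  exact this

/-! ## the index function -/

theorem k_idx (m : ℕ) (i₀ k : ℤ) : idx m i₀ k = i₀ + idx m 0 k := by
  unfold idx
  split_ifs <;> ring

theorem k_idx_neg (m : ℕ) (hm : 2 ≤ m) (k : ℤ) : ∃ t : ℤ, idx m 0 (-k) = - idx m 0 k + t * (2 * m) := by
  have hN : (0 : ℤ) < 2 * m - 1 := by omega
  have h1 := Int.emod_nonneg k hN.ne'
  have h2 := Int.emod_lt_of_pos k hN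
  rcases h1.lt_or_eq with h0 | h0
  · -- `0 < r`
    have e : (-k) % (2 * m - 1) = (2 * m - 1) - k % (2 * m - 1) := by
      have h3 : (-k) % (2 * (m : ℤ) - 1) = ((2 * m - 1) - k % (2 * m - 1)) % (2 * m - 1) := by
        have e1 : (-k) = ((2 * (m : ℤ) - 1) - k % (2 * m - 1)) + (2 * m - 1) * (-(k / (2 * m - 1)) - 1) := by
          have := Int.emod_add_mul_ediv k (2 * m - 1)
          linear_combination this
        conv_lhs => rw [e1]
        rw [Int.add_mul_emod_self_left]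
      rw [h3, Int.emod_eq_of_lt (by omega) (by omega)]
    refine ⟨1, ?_⟩
    unfold idx
    rw [e]
    split_ifs <;> omega
  · have e : (-k) % (2 * (m : ℤ) - 1) = 0 := by
      have : (2 * (m : ℤ) - 1) ∣ k := Int.dvd_of_emod_eq_zero h0.symm
      exact Int.emod_eq_zero_of_dvd ((dvd_neg).2 this)
    refine ⟨0, ?_⟩
    unfold idx
    rw [e, ← h0]
    simp

theorem k_cover (m : ℕ) (hm : 2 ≤ m) (x : ℤ) :
    (∃ k t : ℤ, x = idx m 0 k + t * (2 * m)) ∨ ∃ t : ℤ, x = m + t * (2 * m) := by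
  have hN : (0 : ℤ) < 2 * m := by omega
  have h1 := Int.emod_nonneg x hN.ne'
  have h2 := Int.emod_lt_of_pos x hN
  have h3 := Int.emod_add_mul_ediv x (2 * m)
  rcases lt_trichotomy (x % (2 * m)) m with h | h | h
  · left
    refine ⟨2 * (x % (2 * m)), x / (2 * m), ?_⟩
    have e : (2 * (x % (2 * (m : ℤ)))) % (2 * m - 1) = 2 * (x % (2 * m)) :=
      Int.emod_eq_of_lt (by omega) (by omega)
    unfold idx
    rw [e, if_pos (by omega)]
    have e2 : 2 * (x % (2 * (m : ℤ))) / 2 = x % (2 * m) := by omega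
    rw [e2]
    linarith [mul_comm (2 * (m : ℤ)) (x / (2 * m))]
  · right
    refine ⟨x / (2 * m), ?_⟩
    linarith [mul_comm (2 * (m : ℤ)) (x / (2 * m))]
  · left
    refine ⟨2 * (x % (2 * m) - m - 1) + 1, x / (2 * m), ?_⟩
    have e : (2 * (x % (2 * (m : ℤ)) - m - 1) + 1) % (2 * m - 1) = 2 * (x % (2 * m) - m - 1) + 1 :=
      Int.emod_eq_of_lt (by omega) (by omega)
    unfold idx
    rw [e, if_neg (by omega)]
    have e2 : (2 * (x % (2 * (m : ℤ)) - m - 1) + 1 - 1) / 2 = x % (2 * m) - m - 1 := by omega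
    rw [e2]
    linarith [mul_comm (2 * (m : ℤ)) (x / (2 * m))]

/-- the normalised polygon -/
noncomputable def nrm (m : ℕ) (y : ℤ → ℂ) (i₀ : ℤ) (x : ℤ) : ℂ :=
  (y (i₀ + x) - y i₀) / (y (i₀ + m) - y i₀)

theorem nrm_per {m : ℕ} {y : ℤ → ℂ} (hper : Per (2 * m) y) (i₀ x t : ℤ) :
    nrm m y i₀ (x + t * (2 * m)) = nrm m y i₀ x := by
  unfold nrm
  have := per_mul y hper (i₀ + x) t
  have e : i₀ + (x + t * (2 * m)) = i₀ + x + t * ((2 * m : ℕ) : ℤ) := by push_cast; ring
  rw [e, this]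

theorem idx_zero (m : ℕ) (i₀ : ℤ) : idx m i₀ 0 = i₀ := by
  unfold idx; simp

theorem nrm_idx {m : ℕ} {y : ℤ → ℂ} (i₀ k : ℤ) :
    nrm m y i₀ (idx m 0 k) = (y (idx m i₀ k) - y (idx m i₀ 0)) / (y (i₀ + m) - y (idx m i₀ 0)) := by
  unfold nrm
  rw [idx_zero, k_idx m i₀ k]

/-- the base vertex is not the pendant vertex -/
theorem StarAt.ne {m : ℕ} {y : ℤ → ℂ} {i₀ : ℤ} {α : ℤ → ℝ} {bm bp : ℝ}
    (h : StarAt m y i₀ α bm bp) : y (i₀ + m) - y i₀ ≠ 0 := by
  have := (SD.rig h).ne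
  rwa [idx_zero] at this

/-- two maximal polygons with the same angles have the same normalised polygon -/
theorem nrm_unique {m : ℕ} (hm : 2 ≤ m) {y y' : ℤ → ℂ} (hper : Per (2 * m) y) (hper' : Per (2 * m) y')
    {i₀ i₀' : ℤ} {α : ℤ → ℝ} {bm bp bm' : ℝ} (h : StarAt m y i₀ α bm bp)
    (h' : StarAt m y' i₀' α bm' bp) (x : ℤ) : nrm m y' i₀' x = nrm m y i₀ x := by
  rcases k_cover m hm x with ⟨k, t, rfl⟩ | ⟨t, rfl⟩
  · rw [nrm_per hper', nrm_per hper, nrm_idx, nrm_idx]
    exact k_rigid (SD.rig h) (SD.rig h') k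
  · rw [nrm_per hper', nrm_per hper]
    unfold nrm
    rw [div_self h.ne, div_self h'.ne]

/-- axial symmetry -/
theorem nrm_sym {m : ℕ} (hm : 2 ≤ m) {y : ℤ → ℂ} (hper : Per (2 * m) y)
    {i₀ : ℤ} {α : ℤ → ℝ} {b : ℝ} (h : StarAt m y i₀ α b b) (hα : ∀ k, α (-k) = α k) (x : ℤ) :
    nrm m y i₀ (-x) = conj (nrm m y i₀ x) := by
  rcases k_cover m hm x with ⟨k, t, rfl⟩ | ⟨t, rfl⟩
  · rw [nrm_per hper]
    obtain ⟨s, hs⟩ := k_idx_neg m hm k
    have e : -(idx m 0 k + t * (2 * m)) = idx m 0 (-k) + (-t - s) * (2 * m) := by rw [hs]; ring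
    rw [e, nrm_per hper, nrm_idx, nrm_idx]
    have := k_sym h hα (-k)
    rw [neg_neg] at this
    exact this.symm
  · have e : -((m : ℤ) + t * (2 * m)) = m + (-t - 1) * (2 * m) := by ring
    rw [e, nrm_per hper, nrm_per hper]
    unfold nrm
    rw [div_self h.ne]
    simp

end Pool.Agent.Lib.MP_97284c_gt
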