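import Pool.Agent.Lib.MP_97284c_gt.K.Rigid
import Pool.Agent.Lib.MP_97284c_gt.M.Group
import Pool.Agent.Lib.MP_97284c_gt.StmA
import Pool.Agent.Lib.MP_97284c_gt.StmS

/-!
# MP_97284c_gt, part K: the structure of every maximal polygon
-/

namespace Pool.Agent.Lib.MP_97284c_gt

open ComplexConjugate

/-- the statements used for the structure of all maximal polygons -/
structure Inp : Prop where
  P0 : S_P0
  P1 : S_P1
  P2 : S_P2
  C1 : S_C1
  C3 : S_C3
  C3b : S_C3b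
  C4 : S_C4
  UPs : S_UPs
  T1 : S_T1
  T7 : S_T7
  A9 : S_A9
  S1a : S_S1a
  S1c : S_S1c
  S11 : S_S11
  N1 : S_N1
  N2 : S_N2
  N4 : S_N4
  F0 : S_F0
  F4 : S_F4
  F5 : S_F5
  F6 : S_F6
  F7 : S_F7
  F8 : S_F8

/-- the angle at the star vertex `k` -/
noncomputable def alpS (N : ℕ) (ρ : ℤ → ℝ) (J : ℝ) (k : ℤ) : ℝ :=
  wt N k * Real.arccos (2 * (ρ k - J))

/-- the index pairs at distance one, relative to the base vertex -/
def UnitRel (m : ℕ) (y : ℤ → ℂ) (i₀ : ℤ) : Prop :=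
  ∀ a b : ℤ, 0 ≤ a → a < b → b < 2 * m →
    (‖y (i₀ + a) - y (i₀ + b)‖ = 1 ↔ (b = a + m ∨ b = a + m + 1 ∨ (a = 0 ∧ b = m - 1)))

theorem unitRel_of_stair {m : ℕ} (hm : 2 ≤ m) {y : ℤ → ℂ} {I J e : ℤ → ℤ} {k₀ : ℤ}
    (hper : Per (2 * m) y) (hst : Stair (2 * m) y I J e)
    (hA : ∀ r : ℕ, r ≤ m → I (k₀ + 2 * r) = I k₀ + r ∧ J (k₀ + 2 * r) = I k₀ + m + r)
    (hB : ∀ r : ℕ, r < m → I (k₀ + 2 * r + 1) = I k₀ + r ∧ J (k₀ + 2 * r + 1) = I k₀ + m + r + 1) :
    UnitRel m y (I k₀) := by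
  have hk0 : k₀ = 2 * I k₀ + m := by
    have h1 := hst.sum k₀
    have h2 := (hA 0 (by omega)).2
    simp at h2
    omega
  have hA' : ∀ r : ℤ, 0 ≤ r → r ≤ m → I (k₀ + 2 * r) = I k₀ + r ∧ J (k₀ + 2 * r) = I k₀ + m + r := by
    intro r h0 h1
    have := hA r.toNat (by omega)
    rw [Int.toNat_of_nonneg h0] at this
    exact this
  have hB' : ∀ r : ℤ, 0 ≤ r → r < m →
      I (k₀ + 2 * r + 1) = I k₀ + r ∧ J (k₀ + 2 * r + 1) = I k₀ + m + r + 1 := by
    intro r h0 h1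
    have := hB r.toNat (by omega)
    rw [Int.toNat_of_nonneg h0] at this
    exact this
  intro a b ha hab hb
  constructor
  · intro h
    have hUP : UP (2 * m) y (I k₀ + a) (I k₀ + b) := ⟨by omega, by push_cast; omega, h⟩
    obtain ⟨h1, h2⟩ := hst.uniq _ _ hUP
    set s := I k₀ + a + (I k₀ + b) with hs
    have hsk : s = k₀ + (a + b - m) := by omega
    rcases lt_or_ge (a + b - m) 0 with hu | hu
    · -- shift up
      have i1 := hst.Iper s
      have i2 := hst.Jper s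
      push_cast at i1 i2
      rcases Int.even_or_odd' (a + b - m + 2 * m) with ⟨r, hr | hr⟩
      · have e : s + 2 * (m : ℤ) = k₀ + 2 * r := by omega
        rw [e] at i1 i2
        obtain ⟨j1, j2⟩ := hA' r (by omega) (by omega)
        omega
      · have e : s + 2 * (m : ℤ) = k₀ + 2 * r + 1 := by omega
        rw [e] at i1 i2
        obtain ⟨j1, j2⟩ := hB' r (by omega) (by omega)
        omega
    · rcases le_or_gt (a + b - m) (2 * m) with hv | hv
      · rcases Int.even_or_odd' (a + b - m) with ⟨r, hr | hr⟩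
        · have e : s = k₀ + 2 * r := by omega
          obtain ⟨j1, j2⟩ := hA' r (by omega) (by omega)
          rw [e, j1] at h1
          rw [e, j2] at h2
          omega
        · have e : s = k₀ + 2 * r + 1 := by omega
          obtain ⟨j1, j2⟩ := hB' r (by omega) (by omega)
          rw [e, j1] at h1
          rw [e, j2] at h2
          omega
      · -- shift down
        have i1 := hst.Iper (s - 2 * m)
        have i2 := hst.Jper (s - 2 * m)
        push_cast at i1 i2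
        rw [sub_add_cancel] at i1 i2
        rcases Int.even_or_odd' (a + b - m - 2 * m) with ⟨r, hr | hr⟩
        · have e : s - 2 * (m : ℤ) = k₀ + 2 * r := by omega
          rw [e] at i1 i2
          obtain ⟨j1, j2⟩ := hA' r (by omega) (by omega)
          omega
        · have e : s - 2 * (m : ℤ) = k₀ + 2 * r + 1 := by omega
          rw [e] at i1 i2
          obtain ⟨j1, j2⟩ := hB' r (by omega) (by omega)
          omega
  · rintro (h | h | ⟨h1, h2⟩)
    · obtain ⟨j1, j2⟩ := hA' a ha (by omega)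
      have := (hst.up (k₀ + 2 * a)).2.2
      rw [j1, j2] at this
      rw [h]
      have e : I k₀ + (a + m) = I k₀ + m + a := by ring
      rw [e]; exact this
    · obtain ⟨j1, j2⟩ := hB' a ha (by omega)
      have := (hst.up (k₀ + 2 * a + 1)).2.2
      rw [j1, j2] at this
      rw [h]
      have e : I k₀ + (a + m + 1) = I k₀ + m + a + 1 := by ring
      rw [e]; exact this
    · obtain ⟨j1, j2⟩ := hB' (m - 1) (by omega) (by omega)
      have := (hst.up (k₀ + 2 * (m - 1) + 1)).2.2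
      rw [j1, j2] at this
      rw [h1, h2, add_zero, norm_sub_rev]
      have e : I k₀ + m + ((m : ℤ) - 1) + 1 = I k₀ + ((2 * m : ℕ) : ℤ) := by push_cast; ring
      rw [e, hper] at this
      exact this

/-- the structure of every maximal polygon -/
theorem k_struct (H : Inp) {m : ℕ} (hm : 3 ≤ m) {ρ : ℤ → ℝ} {J : ℝ}
    (huniq : ∀ ρ' J', Sol (2 * m - 1) ρ' J' → ρ' = ρ ∧ J' = J)
    {y : ℤ → ℂ} (hO : Opt (2 * m) y) :
    ∃ i₀ : ℤ, StarAt m y i₀ (alpS (2 * m - 1) ρ J) (Real.arccos (2 * (ρ 0 - J)))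
        (Real.arccos (2 * (ρ 0 - J))) ∧ UnitRel m y i₀ ∧
      ∃ O : ℂ, ∀ k, ‖O - y (idx m i₀ k)‖ ^ 2 = ρ k := by
  have hocc : ∀ k, Occ (2 * m) y k := fun k =>
    m_all H.P0 H.P1 H.P2 H.C1 H.C3 H.C3b H.C4 H.UPs H.T1 H.T7 (by omega) hO k
  obtain ⟨I, J', e, hst⟩ := H.S1a (2 * m) y (by omega) hO hocc
  obtain ⟨β, hang⟩ := H.S1c (2 * m) y I J' e (by omega) hO.1 hO.2.1 hO.2.2.1 hst
  obtain ⟨hcard, hβ, hβ2⟩ := H.S11 (2 * m) y I J' e β (even_two_mul m) (by omega) hO.1 hst hang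
    ((H.A9 (2 * m) (by omega)).2 y hO)
  obtain ⟨k₀, α, bm, bp, hstar, hA, hB⟩ := k_N5 H.N1 H.N2 H.N4 (2 * m) m y I J' e β rfl hm hO hst hang hcard hβ hβ2
  obtain ⟨O, J₁, hSol, hα, _⟩ := k_F11 H.F0 H.F4 H.F5 H.F6 H.F7 H.F8 _ _ _ _ _ _ (by omega) hstar
  obtain ⟨hρ, hJ⟩ := huniq _ _ hSol
  have hbb := H.F0 _ _ _ _ _ _ (by omega) hstar
  have hαeq : α = alpS (2 * m - 1) ρ J := by
    funext k
    rw [hα k]
    unfold alpS
    rw [← hρ, hJ]
  have h0 := hstar.α0
  have hb : bp = Real.arccos (2 * (ρ 0 - J)) := by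
    rw [hαeq, hbb] at h0
    unfold alpS wt at h0
    simp at h0
    linarith
  subst hbb
  rw [hb, hαeq] at hstar
  refine ⟨I k₀, hstar, unitRel_of_stair (by omega) hO.1 hst hA hB, O, ?_⟩
  intro k
  rw [← hρ]

/-- the centre is on the axis -/
theorem k_centre {m : ℕ} {y : ℤ → ℂ} (hm : 2 ≤ m) (hper : Per (2 * m) y) {i₀ : ℤ} {α : ℤ → ℝ} {b : ℝ}
    (h : StarAt m y i₀ α b b) (hα : ∀ k, α (-k) = α k) {ρ : ℤ → ℝ} (hρ : ∀ k, ρ (-k) = ρ k) {O : ℂ}
    (hO : ∀ k, ‖O - y (idx m i₀ k)‖ ^ 2 = ρ k) :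
    ∃ c : ℝ, ∀ k, ‖nrm m y i₀ (idx m 0 k) - c‖ ^ 2 = ρ k := by
  have hun : ‖y (i₀ + m) - y i₀‖ = 1 := by
    have := h.unitp
    rwa [idx_zero] at this
  set u := y (i₀ + m) - y i₀ with hu
  have hune : u ≠ 0 := by rw [hu]; exact h.ne
  have key : ∀ k, ‖nrm m y i₀ (idx m 0 k) - (O - y i₀) / u‖ ^ 2 = ρ k := by
    intro k
    rw [← hO k]
    have e : nrm m y i₀ (idx m 0 k) - (O - y i₀) / u = -((O - y (idx m i₀ k)) / u) := by
      rw [nrm_idx, idx_zero, ← hu]; ring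
    rw [e, norm_neg, norm_div, hun, div_one]
  have hreal : ((O - y i₀) / u).im = 0 := by
    have e1 := key 1
    have e2 := key (-1)
    rw [hρ 1] at e2
    have e3 : nrm m y i₀ (idx m 0 (-1)) = conj (nrm m y i₀ (idx m 0 1)) := by
      rw [← nrm_sym hm hper h hα]
      obtain ⟨t, ht⟩ := k_idx_neg m hm 1
      rw [ht, nrm_per hper]
    rw [e3] at e2
    set c := (O - y i₀) / u
    set w := nrm m y i₀ (idx m 0 1) with hw
    rw [← Complex.normSq_eq_norm_sq, Complex.normSq_apply] at e1 e2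
    simp at e1 e2
    have e4 : w.im * c.im = 0 := by nlinarith
    rcases mul_eq_zero.1 e4 with h0 | h0
    · exfalso
      have hw2 : w = Complex.exp (b * Complex.I) := by
        rw [hw, nrm_idx]
        have := h.rotp
        rw [idx_zero] at this ⊢
        rw [this, mul_div_assoc, div_self h.ne, mul_one]
      rw [hw2, Complex.exp_ofReal_mul_I_im] at h0
      have hb0 := h.bp0
      have hb1 := h.bp1
      have := Real.sin_pos_of_pos_of_lt_pi hb0 (by linarith [Real.pi_pos])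
      linarith
    · exact h0
  refine ⟨((O - y i₀) / u).re, fun k => ?_⟩
  have e : ((((O - y i₀) / u).re : ℝ) : ℂ) = (O - y i₀) / u := by
    apply Complex.ext
    · simp
    · simp [hreal]
  rw [e]
  exact key k

end Pool.Agent.Lib.MP_97284c_gt
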